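import Mathlib
import Pool.Agent.Lib.MP_5f1228_co.Ex.Final

/-!
# MP_5f1228_co, Q2: the conjectured threshold is exact for large `n`, for all `r`

For every `r ≥ 1` there is `n₀` such that every graph `G` on `n ≥ n₀` vertices with minimum degree
at least `⌊(1 - 2^(-r)) n⌋` has property `TP_r`: for every `r`-colouring of its edges the vertex
set is partitioned by at most `r` monochromatic trees of pairwise distinct colours. By the example
in the problem file this is best possible for every `n`: minimum degree `⌊(1 - 2^(-r)) n⌋ - 1` does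
not suffice. So Q2 holds for all `r` and all `n ≥ n₀(r)`.
-/

open scoped Classical

namespace Pool.Agent.Results.MP_5f1228_co.ExactThreshold

/-- Here `H i` is the tree of colour `i` (the empty subgraph if colour `i` is not used). -/
theorem result (r : ℕ) (hr : 1 ≤ r) :
    ∃ n₀ : ℕ, ∀ (V : Type) [Fintype V] (G : SimpleGraph V), n₀ ≤ Fintype.card V →
      (∀ v, ⌊(1 - 1 / 2 ^ r) * (Fintype.card V : ℝ)⌋₊ ≤ G.degree v) →
      ∀ c : G.edgeSet → Fin r, ∃ H : Fin r → G.Subgraph,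
        (∀ i, H i = ⊥ ∨ (H i).coe.IsTree) ∧
        (∀ i v w, ∀ h : (H i).Adj v w, c ⟨s(v, w), (H i).adj_sub h⟩ = i) ∧
        ∀ v, ∃! i, v ∈ (H i).verts := by
  obtain ⟨n₀, hn₀⟩ := MP5f1228.Ex.tp_exact r hr
  refine ⟨n₀, fun V _ G hn hdeg c => ?_⟩
  obtain ⟨c', hc'⟩ : ∃ c' : Sym2 V → Fin r, ∀ e (he : e ∈ G.edgeSet), c' e = c ⟨e, he⟩ :=
    ⟨fun e => if he : e ∈ G.edgeSet then c ⟨e, he⟩ else ⟨0, hr⟩, fun e he => by simp [he]⟩
  obtain ⟨H, h1, h2, h3⟩ := hn₀ V G c' hn (fun v => by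
    have h := Nat.lt_floor_add_one ((1 - 1 / 2 ^ r) * (Fintype.card V : ℝ))
    have h' : ((⌊(1 - 1 / 2 ^ r) * (Fintype.card V : ℝ)⌋₊ : ℕ) : ℝ) ≤ G.degree v := by
      exact_mod_cast hdeg v
    linarith)
  refine ⟨H, h1, fun i v w h => ?_, h3⟩
  rw [← hc' s(v, w) ((H i).adj_sub h)]
  exact h2 i v w h

end Pool.Agent.Results.MP_5f1228_co.ExactThreshold
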