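import Mathlib
import Pool.Agent.Lib.MP_5f1228_co.BFinal

/-!
# MP_5f1228_co, Q2: partition into monochromatic trees of distinct colours, the right rate

For every `r ≥ 1`, every graph `G` on `n ≥ 2 ^ (40 r)` vertices with minimum degree at least
`(1 - 1 / (2 ^ (r + 12) r ^ 7)) n` has property `TP_r`: for every `r`-colouring of its edges
the vertex set is partitioned by at most `r` monochromatic trees of pairwise distinct colours.
The question Q2 asks for the threshold `(1 - 2 ^ (-r)) n`, which would be best possible; so this is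
the conjectured threshold up to a polynomial factor in `r`. As the hypothesis
`(1 - 2 ^ (-40 r)) n ≤ δ(G) ≤ n - 1` forces `n ≥ 2 ^ (40 r)`, the theorem also shows that every
graph with `δ(G) ≥ (1 - 2 ^ (-40 r)) n` has property `TP_r`, without an assumption on `n`.
-/

open scoped Classical

namespace Pool.Agent.Results.MP_5f1228_co.OptimalRate

/-- Here `H i` is the tree of colour `i` (the empty subgraph if colour `i` is not used). -/
theorem result (r : ℕ) (hr : 1 ≤ r) (V : Type) [Fintype V] (G : SimpleGraph V)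
    (hn : 2 ^ (40 * r) ≤ Fintype.card V)
    (hdeg : ∀ v, (1 - 1 / (2 ^ (r + 12) * (r : ℝ) ^ 7)) * (Fintype.card V : ℝ) ≤
      (G.degree v : ℝ))
    (c : G.edgeSet → Fin r) :
    ∃ H : Fin r → G.Subgraph,
      (∀ i, H i = ⊥ ∨ (H i).coe.IsTree) ∧
      (∀ i v w, ∀ h : (H i).Adj v w, c ⟨s(v, w), (H i).adj_sub h⟩ = i) ∧
      ∀ v, ∃! i, v ∈ (H i).verts := by
  obtain ⟨c', hc'⟩ : ∃ c' : Sym2 V → Fin r, ∀ e (he : e ∈ G.edgeSet), c' e = c ⟨e, he⟩ :=
    ⟨fun e => if he : e ∈ G.edgeSet then c ⟨e, he⟩ else ⟨0, hr⟩, fun e he => by simp [he]⟩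
  obtain ⟨F, hF⟩ := MP5f1228B.classesB r hr V G c' hn hdeg
  obtain ⟨H, h1, h2, h3⟩ := MP5f1228.trees_of_partition G c' F hF
  refine ⟨H, h1, fun i v w h => ?_, h3⟩
  rw [← hc' s(v, w) ((H i).adj_sub h)]
  exact h2 i v w h

end Pool.Agent.Results.MP_5f1228_co.OptimalRate
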